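import Pool.Agent.Y377.IL.SpA

/-!
Project IL (helper377), part C: solutions of linear equations belong to the class (S_LI).
-/

set_option autoImplicit false

namespace Pool.Agent.Y125.IL

open Set Filter Topology Pool.Agent.Y377.IL
open Pool.Agent.TH143.EL (LinB mero_an mero_ne codis_nhds)

/-- derivatives of meromorphic functions -/
theorem mero_iter {h : ℂ → ℂ} (hh : Meromorphic h) (k : ℕ) : Meromorphic (iteratedDeriv k h) := by
  rw [iteratedDeriv_eq_iterate]
  exact hh.iterated_deriv

theorem an_iter {f : ℂ → ℂ} {z : ℂ} (hf : AnalyticAt ℂ f z) (k : ℕ) :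
    AnalyticAt ℂ (iteratedDeriv k f) z := by
  induction k with
  | zero =>
    rw [iteratedDeriv_zero]
    exact hf
  | succ k ih =>
    rw [iteratedDeriv_succ]
    exact ih.deriv

theorem li : ∀ B : Subalgebra ℂ (ℂ → ℂ), DB B → ∀ h : ℂ → ℂ, Meromorphic h → LinB B h →
    IterLin B h := by
  classical
  rintro B hB h hh ⟨m, a, ha, ⟨k0, hk0, hne⟩, heq⟩
  -- the order of the equation
  let P : ℕ → Prop := fun k => ¬ ∀ᶠ z in codiscrete ℂ, a k z = 0
  obtain ⟨n, hnP, hnm, hmax⟩ : ∃ n, P n ∧ n ≤ m ∧ ∀ k, n < k → k ≤ m → ¬ P k :=
    ⟨Nat.findGreatest P m, Nat.findGreatest_spec (P := P) hk0 hne, Nat.findGreatest_le m,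
      fun k h1 h2 => Nat.findGreatest_is_greatest h1 h2⟩
  have hzero : ∀ᶠ z in codiscrete ℂ, ∀ k ∈ Finset.range (m + 1), n < k → a k z = 0 := by
    rw [Filter.eventually_all_finset]
    intro k hk
    by_cases h1 : n < k
    · have h2 : ∀ᶠ z in codiscrete ℂ, a k z = 0 :=
        not_not.1 (hmax k h1 (by have := Finset.mem_range.1 hk; omega))
      exact h2.mono fun z hz _ => hz
    · exact Eventually.of_forall fun z h2 => absurd h2 h1
  have han : ∀ᶠ z in codiscrete ℂ, a n z ≠ 0 := mero_ne (hB.mero _ (ha n)) hnP
  have heq' : ∀ᶠ z in codiscrete ℂ, ∑ k ∈ Finset.range (n + 1), a k z * iteratedDeriv k h z = 0 := by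
    filter_upwards [heq, hzero] with z h1 h2
    rw [← h1]
    apply Finset.sum_subset
    · intro k hk
      have := Finset.mem_range.1 hk
      exact Finset.mem_range.2 (by omega)
    · intro k hk hk'
      have h3 : n < k := by
        by_contra h4
        exact hk' (Finset.mem_range.2 (by omega))
      rw [h2 k hk h3, zero_mul]
  rcases n with _ | n
  · -- the function is zero
    have h0 : ∀ᶠ z in codiscrete ℂ, h z = 0 := by
      filter_upwards [heq', han] with z h1 h2
      rw [Finset.sum_range_one, iteratedDeriv_zero] at h1
      exact (mul_eq_zero.1 h1).resolve_left h2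
    have h1 := IterLin.ode (B := B) (n := 1) (fun _ _ _ => 0) (fun _ => h)
      (fun _ _ => IterLin.const B 0) (fun _ => hh) (by
        filter_upwards [h0] with z hz i
        have h2 : ∀ᶠ w in 𝓝 z, h w = 0 := codis_nhds (U := {w | h w = 0}) h0 hz
        have h3 : HasDerivAt h 0 z := (hasDerivAt_const z (0 : ℂ)).congr_of_eventuallyEq h2
        simpa using h3) 0
    exact h1
  · let A : Fin (n + 1) → Fin (n + 1) → ℂ → ℂ := fun i j =>
      if i.val = n then fun z => (-a j.val) z / a (n + 1) z
      else fun _ => if j.val = i.val + 1 then 1 else 0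
    have hA : ∀ i j, IterLin B (A i j) := by
      intro i j
      by_cases hi : i.val = n
      · have e : A i j = fun z => (-a j.val) z / a (n + 1) z := if_pos hi
        rw [e]
        exact IterLin.quot (B.neg_mem (ha _)) (ha _)
      · have e : A i j = fun _ => if j.val = i.val + 1 then 1 else 0 := if_neg hi
        rw [e]
        exact IterLin.const B _
    have h1 := IterLin.ode (B := B) A (fun i => iteratedDeriv i.val h) hA
      (fun i => mero_iter hh i.val) (by
        filter_upwards [mero_an hh, heq', han] with z h2 h3 h4 i
        have h5 : HasDerivAt (iteratedDeriv i.val h) (iteratedDeriv (i.val + 1) h z) z := by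
          have h6 : AnalyticAt ℂ (iteratedDeriv i.val h) z := an_iter h2 _
          have h7 := h6.differentiableAt.hasDerivAt
          rw [← iteratedDeriv_succ] at h7
          exact h7
        have h6 : ∑ j, A i j z * iteratedDeriv j.val h z = iteratedDeriv (i.val + 1) h z := by
          by_cases hi : i.val = n
          · have e : ∀ j, A i j z = (-a j.val) z / a (n + 1) z := fun j => by
              have e' : A i j = fun z => (-a j.val) z / a (n + 1) z := if_pos hi
              rw [e']
            simp only [e, Pi.neg_apply, hi]
            rw [Finset.sum_range_succ, Finset.sum_range] at h3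
            have e2 : ∑ j : Fin (n + 1), -a j.val z / a (n + 1) z * iteratedDeriv j.val h z =
                -(∑ j : Fin (n + 1), a j.val z * iteratedDeriv j.val h z) / a (n + 1) z := by
              rw [neg_div, Finset.sum_div, ← Finset.sum_neg_distrib]
              refine Finset.sum_congr rfl fun j _ => ?_
              ring
            rw [e2, div_eq_iff h4]
            linear_combination -h3
          · have e : ∀ j, A i j z = if j.val = i.val + 1 then 1 else 0 := fun j => by
              have e' : A i j = fun _ => if j.val = i.val + 1 then 1 else 0 := if_neg hi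
              rw [e']
            simp only [e]
            have hi' : i.val + 1 < n + 1 := by
              have := i.2
              omega
            rw [Finset.sum_eq_single (⟨i.val + 1, hi'⟩ : Fin (n + 1))]
            · simp
            · intro j _ hj
              have : j.val ≠ i.val + 1 := fun h => hj (Fin.ext h)
              simp [this]
            · intro h
              exact absurd (Finset.mem_univ _) h
        rw [h6]
        exact h5) 0
    simpa using h1

end Pool.Agent.Y125.IL
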