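import Pool.Agent.TH143.EL.Proj

/-!
Project IL (helper377), part C: ratios of the homogeneous coordinates are meromorphic (S_RT).
-/

set_option autoImplicit false

namespace Pool.Agent.Y125.IL

open Set Filter Topology
open scoped LinearAlgebra.Projectivization
open Pool.Agent.TH143.EL (HolMap Rep rep_rep rep_iff mero_ne freq_of_ev codis_ev)

/-- the homogeneous coordinates are proportional to the local coordinates -/
theorem ratio {N : ℕ} {p : ℙ ℂ (Fin (N + 1) → ℂ)} {g : Fin (N + 1) → ℂ} (h : Rep p g)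
    (i l : Fin (N + 1)) : p.rep i / p.rep l = g i / g l ∧ (p.rep l = 0 ↔ g l = 0) := by
  obtain ⟨h0, h1⟩ := (rep_iff h).1 (rep_rep p)
  have hg : g ≠ 0 := h.1
  have key : p.rep l = 0 ↔ g l = 0 := by
    constructor
    · intro h2
      obtain ⟨k, hk⟩ := Function.ne_iff.1 h0
      have hk' : p.rep k ≠ 0 := hk
      have h3 := h1 l k
      rw [h2, mul_zero] at h3
      exact (mul_eq_zero.1 h3).resolve_right hk'
    · intro h2
      obtain ⟨k, hk⟩ := Function.ne_iff.1 hg
      have hk' : g k ≠ 0 := hk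
      have h3 := h1 l k
      rw [h2, zero_mul] at h3
      exact (mul_eq_zero.1 h3.symm).resolve_left hk'
  refine ⟨?_, key⟩
  by_cases hl : g l = 0
  · rw [hl, key.2 hl, div_zero, div_zero]
  · have hl' : p.rep l ≠ 0 := fun h => hl (key.1 h)
    rw [div_eq_div_iff hl' hl]
    have := h1 i l
    linear_combination -this

theorem rt : ∀ (N : ℕ) (f : ℂ → ℙ ℂ (Fin (N + 1) → ℂ)), HolMap f → ∀ l : Fin (N + 1),
    (∃ z, (f z).rep l ≠ 0) → (∀ i, Meromorphic fun z => (f z).rep i / (f z).rep l) ∧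
      ∀ᶠ z in codiscrete ℂ, (f z).rep l ≠ 0 := by
  intro N f hf l hl
  have hmer : ∀ i, Meromorphic fun z => (f z).rep i / (f z).rep l := by
    intro i a
    obtain ⟨g, hg, hr⟩ := hf a
    have h1 : MeromorphicAt (fun z => g i z / g l z) a :=
      (hg i).meromorphicAt.div (hg l).meromorphicAt
    refine h1.congr ?_
    apply Filter.Eventually.filter_mono nhdsWithin_le_nhds
    filter_upwards [hr] with z hz
    exact (ratio hz i l).1.symm
  refine ⟨hmer, ?_⟩
  obtain ⟨z1, hz1⟩ := hl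
  obtain ⟨g, hg, hr⟩ := hf z1
  have h0 : g l z1 ≠ 0 := fun h => hz1 ((ratio hr.self_of_nhds l l).2.2 h)
  have h2 : ∀ᶠ z in 𝓝 z1, (f z).rep l / (f z).rep l ≠ 0 := by
    filter_upwards [hr, (hg l).continuousAt.eventually_ne h0] with z h3 h4
    rw [(ratio h3 l l).1]
    exact div_ne_zero h4 h4
  have h3 : ¬ ∀ᶠ z in codiscrete ℂ, (f z).rep l / (f z).rep l = 0 := by
    intro h4
    obtain ⟨z, h5, h6⟩ := ((freq_of_ev h2).and_eventually (codis_ev h4 z1)).exists
    exact h5 h6
  filter_upwards [mero_ne (hmer l) h3] with z hz h4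
  rw [h4, div_zero] at hz
  exact hz rfl

end Pool.Agent.Y125.IL
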