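import Pool.Agent.Y377.IL.StmC
import Pool.Agent.Y125.IL.LI
import Pool.Agent.Y125.IL.RT

/-!
Project IL (helper377), part C: S_LI and S_RT.
-/

set_option autoImplicit false

namespace Pool.Agent.Y125.IL

theorem t_LI : Pool.Agent.Y377.IL.S_LI := li

theorem t_RT : Pool.Agent.Y377.IL.S_RT := rt

end Pool.Agent.Y125.IL
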